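import Pool.Graph.R_seed8.R369.Fad.Final

/-!
An algebraic endomorphism `τ` of a vector group for which `τ^n` has finitely many fixed points:
`τ^n - 1` is surjective (helper file).
-/

set_option autoImplicit false

namespace Pool.Agent.H61.Fadx

open Polynomial Pool.Agent.R369.Fad

variable {K : Type*} [Field K] [IsAlgClosed K] (p : ℕ) [hp : Fact p.Prime] [CharP K p]

/-- Every compatible system of values on a stable subspace with finitely many common zeros is
attained at a point. -/
theorem exists_point (r : ℕ) : ∀ (J : Submodule K ((Fin r → K) → K))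
    (lam : ((Fin r → K) → K) → K), J ≤ Nm p r →
    (∀ (k : ℤ) (f : (Fin r → K) → K), f ∈ J → Ph p k f ∈ J) → (Zs J).Finite →
    (∀ f ∈ J, ∀ g ∈ J, lam (f + g) = lam f + lam g) →
    (∀ (c : K), ∀ f ∈ J, lam (c • f) = c * lam f) →
    (∀ (k : ℤ), ∀ f ∈ J, lam (Ph p k f) = Fz p k (lam f)) →
    ∃ x : Fin r → K, ∀ f ∈ J, f x = lam f := by
  classical
  induction r with
  | zero =>
    intro J lam hJ _ _ _ hsmul _
    have hN : Nm (K := K) p 0 = ⊥ := by
      unfold Nm
      rw [Set.range_eq_empty, Submodule.span_empty]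
    refine ⟨0, fun f hf => ?_⟩
    have hf0 : f = 0 := by
      have := hJ hf
      rw [hN, Submodule.mem_bot] at this
      exact this
    have h1 := hsmul 0 f hf
    rw [zero_smul, zero_mul] at h1
    rw [hf0, h1]
    rfl
  | succ r ih =>
    intro J lam hJ hst hfin hladd hlsmul hlPh
    -- the subspace for the last coordinates
    let J0 : Submodule K ((Fin r → K) → K) := Nm p r ⊓ J.comap (tl r)
    have hJ0 : ∀ f, f ∈ J0 ↔ f ∈ Nm p r ∧ tl r f ∈ J := fun f => Iff.rfl
    let I : Submodule K (K → K) := J.map (rs r)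
    have hIN : I ≤ N1 p := by
      rintro _ ⟨f, hf, rfl⟩
      exact rs_mem p r (hJ hf)
    have hIst : ∀ (k : ℤ) (f : K → K), f ∈ I → Ph p k f ∈ I := by
      rintro k _ ⟨f, hf, rfl⟩
      exact ⟨Ph p k f, hst k f hf, rfl⟩
    have hIne : I ≠ ⊥ := by
      intro hbot
      have hsub : Set.range (fun a : K => (Fin.cons a 0 : Fin (r + 1) → K)) ⊆ Zs J := by
        rintro _ ⟨a, rfl⟩ f hf
        have : rs r f ∈ I := ⟨f, hf, rfl⟩
        rw [hbot, Submodule.mem_bot] at this
        exact congrFun this a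
      have hinj : Function.Injective (fun a : K => (Fin.cons a 0 : Fin (r + 1) → K)) := by
        intro a b h
        have := congrFun h 0
        simpa using this
      exact (Set.infinite_range_of_injective hinj) (hfin.subset hsub)
    obtain ⟨d, c, hc0, hcd, hgI, hind, hspan⟩ := stable_structure p I hIN hIst hIne
    obtain ⟨G, hGJ, hG⟩ := hgI
    have hrsPh : ∀ k, rs r (Ph p k G) = Ph p k (gs p (d + 1) c) := by
      intro k
      rw [rs_Ph, hG]
    -- spans of the shifts
    have hspanmap : Submodule.span K (Set.range fun k : ℤ => Ph p k (gs p (d + 1) c)) =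
        (Submodule.span K (Set.range fun k : ℤ => Ph p k G)).map (rs r) := by
      rw [Submodule.map_span, ← Set.range_comp]
      congr 1
      congr 1
      funext k
      exact (hrsPh k).symm
    have hspanJ : Submodule.span K (Set.range fun k : ℤ => Ph p k G) ≤ J := by
      rw [Submodule.span_le]
      rintro _ ⟨k, rfl⟩
      exact hst k G hGJ
    have hdecN : ∀ f ∈ Nm (K := K) p (r + 1), ∃ (a : ℕ → K) (s : (Fin (r + 1) → K) → K),
        s ∈ Submodule.span K (Set.range fun k : ℤ => Ph p k G) ∧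
        rs r f = rs r s + gs p d a := by
      intro f hf
      obtain ⟨a, ha⟩ := hspan _ (rs_mem p r hf)
      rw [hspanmap] at ha
      obtain ⟨s, hs, hs2⟩ := ha
      exact ⟨a, s, hs, by rw [hs2]; abel⟩
    have hdecJ : ∀ f ∈ J, ∃ s ∈ Submodule.span K (Set.range fun k : ℤ => Ph p k G),
        ∃ f0 ∈ J0, f = tl r f0 + s := by
      intro f hf
      obtain ⟨a, s, hs, h⟩ := hdecN f (hJ hf)
      have h1 : gs p d a ∈ I := by
        have : gs p d a = rs r (f - s) := by
          rw [map_sub, h]; abel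
        rw [this]
        exact ⟨f - s, Submodule.sub_mem _ hf (hspanJ hs), rfl⟩
      have h2 : gs p d a = 0 := by
        unfold gs
        refine Finset.sum_eq_zero fun i hi => ?_
        rw [hind a h1 i (Finset.mem_range.mp hi), zero_smul]
      have h3 : f - s ∈ J := Submodule.sub_mem _ hf (hspanJ hs)
      have h4 : rs r (f - s) = 0 := by
        rw [map_sub, h, h2, add_zero, sub_self]
      have h5 := eq_tl_of_rs p r (hJ h3) h4
      refine ⟨s, hs, hy r (f - s), ?_, ?_⟩
      · rw [hJ0]
        exact ⟨hy_mem p r (hJ h3), by rw [← h5]; exact h3⟩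
      · rw [← h5]; abel
    -- the zero set
    have hZ : ∀ (a : K) (x : Fin r → K), x ∈ Zs J0 → gs p (d + 1) c a + hy r G x = 0 →
        (Fin.cons a x : Fin (r + 1) → K) ∈ Zs J := by
      intro a x h1 h2
      have hGv : G (Fin.cons a x) = gs p (d + 1) c a + hy r G x := by
        rw [split_fun p r (hJ hGJ), hG]
      intro f hf
      obtain ⟨s, hs, f0, hf0, rfl⟩ := hdecJ f hf
      rw [Pi.add_apply, tl_apply, Fin.tail_cons, h1 f0 hf0, zero_add]
      have hle : Submodule.span K (Set.range fun k : ℤ => Ph p k G) ≤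
          LinearMap.ker (LinearMap.proj (R := K) (φ := fun _ => K)
            (Fin.cons a x : Fin (r + 1) → K)) := by
        rw [Submodule.span_le]
        rintro _ ⟨k, rfl⟩
        change Ph p k G (Fin.cons a x) = 0
        unfold Ph
        rw [hGv, h2, Fz_zero_right]
      exact hle hs
    have hfibne : ∀ y : K, Nonempty {a : K // gs p (d + 1) c a + y = 0} := by
      intro y
      have h1 : 0 < Nat.card {a : K // gs p (d + 1) c a + y = 0} := by
        rw [card_fibre p d c hc0 hcd]
        exact Nat.pow_pos hp.out.pos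
      exact (Nat.card_pos_iff.mp h1).1
    have hZ0fin : (Zs J0).Finite := by
      have : Zs J0 ⊆ (fun x : Fin (r + 1) → K => Fin.tail x) '' (Zs J) := by
        intro x hx
        obtain ⟨a, ha⟩ := hfibne (hy r G x)
        exact ⟨Fin.cons a x, hZ a x hx ha, Fin.tail_cons _ _⟩
      exact (hfin.image _).subset this
    have hJ0st : ∀ (k : ℤ) (f : (Fin r → K) → K), f ∈ J0 → Ph p k f ∈ J0 := by
      intro k f hf
      rw [hJ0] at hf ⊢
      exact ⟨Ph_mem p r k hf.1, by rw [tl_Ph]; exact hst k _ hf.2⟩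
    obtain ⟨x0, hx0⟩ := ih J0 (fun f => lam (tl r f)) (fun f hf => ((hJ0 f).mp hf).1) hJ0st hZ0fin
      (by
        intro f hf g hg
        simp only [map_add]
        exact hladd _ ((hJ0 f).mp hf).2 _ ((hJ0 g).mp hg).2)
      (by
        intro c f hf
        simp only [map_smul]
        exact hlsmul _ _ ((hJ0 f).mp hf).2)
      (by
        intro k f hf
        simp only [tl_Ph]
        exact hlPh k _ ((hJ0 f).mp hf).2)
    obtain ⟨a, ha⟩ := hfibne (hy r G x0 - lam G)
    refine ⟨Fin.cons a x0, ?_⟩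
    have hGv : G (Fin.cons a x0) = lam G := by
      rw [split_fun p r (hJ hGJ), hG]
      linear_combination ha
    -- the span of the shifts
    have hs : ∀ s ∈ Submodule.span K (Set.range fun k : ℤ => Ph p k G),
        s (Fin.cons a x0) = lam s := by
      intro s hs
      induction hs using Submodule.span_induction with
      | mem s hs =>
        obtain ⟨k, rfl⟩ := hs
        change Ph p k G (Fin.cons a x0) = lam (Ph p k G)
        rw [hlPh k G hGJ]
        unfold Ph
        rw [hGv]
      | zero =>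
        have h1 := hlsmul 0 G hGJ
        rw [zero_smul, zero_mul] at h1
        rw [h1]
        rfl
      | add s t hs ht hs' ht' =>
        rw [hladd s (hspanJ hs) t (hspanJ ht), Pi.add_apply, hs', ht']
      | smul c s hs hs' =>
        rw [hlsmul c s (hspanJ hs), Pi.smul_apply, hs', smul_eq_mul]
    intro f hf
    obtain ⟨s, hs1, f0, hf0, rfl⟩ := hdecJ f hf
    rw [hladd _ ((hJ0 f0).mp hf0).2 _ (hspanJ hs1), Pi.add_apply, tl_apply, Fin.tail_cons,
      hx0 f0 hf0, hs s hs1]

/-- Surjectivity of `σ^n - 1`. -/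
theorem sub_surjective (r : ℕ) (σ : (Fin r → K) → (Fin r → K))
    (hσ : ∀ f ∈ Nm (K := K) p r, (fun x => f (σ x)) ∈ Nm p r) (n : ℕ)
    (hfin : {x : Fin r → K | σ^[n] x = x}.Finite) (y : Fin r → K) :
    ∃ x : Fin r → K, σ^[n] x - x = y := by
  classical
  set T := opT p r σ hσ with hT
  set M : Module.End K (Nm (K := K) p r) := aeval T (X ^ n - 1 : K[X]) with hM
  have hval : ∀ (f : Nm (K := K) p r) (x : Fin r → K),
      (M f).1 x = f.1 (σ^[n] x) - f.1 x := by
    intro f x
    rw [hM, map_sub, map_pow, aeval_X, map_one, LinearMap.sub_apply, ← opT_pow p r σ hσ]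
    rfl
  have hfinq := (card_fix p r σ hσ n hfin).1
  have hcomm : ∀ k f, M ((datN (K := K) p r).Φ k f) = (datN (K := K) p r).Φ k (M f) := by
    intro k f
    rw [hM, (datN (K := K) p r).Φ_aeval T (fun k f => opT_comm p r σ hσ k f)]
    simp
  have hinj : Function.Injective M := (datN (K := K) p r).inj_of_codim M hcomm hfinq
  set J := (LinearMap.range M).map (Nm (K := K) p r).subtype with hJ
  have hJle : J ≤ Nm p r := by
    rw [hJ]
    exact Submodule.map_subtype_le _ _
  have hmem : ∀ g ∈ J, ∃ f : Nm (K := K) p r, (M f).1 = g := by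
    rintro _ ⟨_, ⟨f, rfl⟩, rfl⟩
    exact ⟨f, rfl⟩
  have hPhM : ∀ (k : ℤ) (f : Nm (K := K) p r),
      (M ((datN p r).Φ k f)).1 = Ph p k (M f).1 := by
    intro k f
    rw [hcomm]
    rfl
  have hJst : ∀ (k : ℤ) (f : (Fin r → K) → K), f ∈ J → Ph p k f ∈ J := by
    rintro k _ ⟨_, ⟨f, rfl⟩, rfl⟩
    exact ⟨M ((datN p r).Φ k f), ⟨_, rfl⟩, hPhM k f⟩
  have hZs : Zs J = {x : Fin r → K | σ^[n] x = x} := by
    ext x
    constructor
    · intro h
      change σ^[n] x = x
      funext j
      have h1 := h _ ⟨M ⟨ef p r 0 j, ef_mem p r 0 j⟩, ⟨_, rfl⟩, rfl⟩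
      rw [Submodule.subtype_apply, hval, sub_eq_zero] at h1
      change Fz p 0 (σ^[n] x j) = Fz p 0 (x j) at h1
      rw [Fz_zero, Fz_zero] at h1
      exact h1
    · rintro h _ ⟨_, ⟨f, rfl⟩, rfl⟩
      rw [Submodule.subtype_apply, hval, sub_eq_zero]
      change σ^[n] x = x at h
      rw [h]
  -- the values
  let lam : ((Fin r → K) → K) → K := fun g =>
    if h : ∃ f : Nm (K := K) p r, (M f).1 = g then (Classical.choose h).1 y else 0
  have hlam : ∀ f : Nm (K := K) p r, lam (M f).1 = f.1 y := by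
    intro f
    have h : ∃ f' : Nm (K := K) p r, (M f').1 = (M f).1 := ⟨f, rfl⟩
    have h1 : lam (M f).1 = (Classical.choose h).1 y := by
      simp only [lam]
      rw [dif_pos h]
    have h2 : Classical.choose h = f := hinj (Subtype.ext (Classical.choose_spec h))
    rw [h1, h2]
  obtain ⟨x, hx⟩ := exists_point p r J lam hJle hJst (by rw [hZs]; exact hfin)
    (by
      intro f hf g hg
      obtain ⟨f, rfl⟩ := hmem f hf
      obtain ⟨g, rfl⟩ := hmem g hg
      have h1 : (M f).1 + (M g).1 = (M (f + g)).1 := by rw [map_add]; rfl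
      rw [h1, hlam, hlam, hlam]
      rfl)
    (by
      intro c f hf
      obtain ⟨f, rfl⟩ := hmem f hf
      have h1 : c • (M f).1 = (M (c • f)).1 := by rw [map_smul]; rfl
      rw [h1, hlam, hlam]
      rfl)
    (by
      intro k f hf
      obtain ⟨f, rfl⟩ := hmem f hf
      rw [← hPhM, hlam, hlam]
      rfl)
  refine ⟨x, ?_⟩
  funext j
  have h1 := hx _ ⟨M ⟨ef p r 0 j, ef_mem p r 0 j⟩, ⟨_, rfl⟩, rfl⟩
  rw [Submodule.subtype_apply, hlam, hval] at h1
  change Fz p 0 (σ^[n] x j) - Fz p 0 (x j) = Fz p 0 (y j) at h1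
  rw [Fz_zero, Fz_zero, Fz_zero] at h1
  exact h1

end Pool.Agent.H61.Fadx
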